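import Pool.Agent.Lib.MP_adc574_ag_OA.C9
import Pool.Agent.Lib.MP_adc574_ag_OA.G1
import Pool.Agent.Lib.MP_adc574_ag_OA.G5

/-!
# Leaf M8: the primes dividing the discriminant of `f`
-/

set_option autoImplicit false

namespace MPadcOA

open Polynomial NumberField

/-- The logarithmic bound for the number of the maximal ideals containing `D`. -/
private theorem M8_log {K : Type} [Field K] [NumberField K] {m : ℕ}
    (hm : Module.finrank ℚ K = m) (D : 𝓞 K) (hD : D ≠ 0) {C : ℝ} (hC : 1 ≤ C) (e : ℕ) {H : ℝ}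
    (hH : 2 ≤ H) (h : house (D : K) ≤ C * H ^ e) (y : ℕ) :
    (nK K (fun 𝔭 => D ∈ 𝔭) y : ℝ) ≤
      (m * (Real.log C / Real.log 2 + e) / Real.log 2) * Real.log H := by
  have h1 := nK_mem D hD y
  have h2 := absNorm_le_house D
  rw [hm] at h2
  have hl2 : 0 < Real.log 2 := Real.log_pos (by norm_num)
  have hlH : Real.log 2 ≤ Real.log H := Real.log_le_log (by norm_num) hH
  have hlC : 0 ≤ Real.log C := Real.log_nonneg hC
  have hC0 : 0 < C := by linarith
  have hH0 : 0 < H := by linarith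
  have h3 : (0 : ℝ) < Ideal.absNorm (Ideal.span {D}) := by
    have h4 : Ideal.absNorm (Ideal.span {D}) ≠ 0 := by
      intro h5
      rw [Ideal.absNorm_eq_zero_iff, Ideal.span_singleton_eq_bot] at h5
      exact hD h5
    exact_mod_cast Nat.pos_of_ne_zero h4
  have h4 : (Ideal.absNorm (Ideal.span {D}) : ℝ) ≤ (C * H ^ e) ^ m :=
    h2.trans (pow_le_pow_left₀ (house_nonneg _) h _)
  have h5 : Real.log (Ideal.absNorm (Ideal.span {D})) ≤ m * (Real.log C + e * Real.log H) := by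
    refine (Real.log_le_log h3 h4).trans (le_of_eq ?_)
    rw [Real.log_pow, Real.log_mul hC0.ne' (pow_ne_zero _ hH0.ne'), Real.log_pow]
  have h6 : Real.log C ≤ Real.log C / Real.log 2 * Real.log H := by
    rw [div_mul_eq_mul_div, le_div_iff₀ hl2]
    exact mul_le_mul_of_nonneg_left hlH hlC
  have h7 : (m : ℝ) * (Real.log C + e * Real.log H) ≤
      m * (Real.log C / Real.log 2 + e) * Real.log H := by
    rw [mul_assoc]
    refine mul_le_mul_of_nonneg_left ?_ (Nat.cast_nonneg m)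
    rw [add_mul]
    linarith
  have h8 : (nK K (fun 𝔭 => D ∈ 𝔭) y : ℝ) * Real.log 2 ≤
      m * (Real.log C / Real.log 2 + e) * Real.log H := h1.trans (h5.trans h7)
  rw [div_mul_eq_mul_div, le_div_iff₀ hl2]
  exact h8

/-- PROOF. If `s > 0`: `D = 2 * D'`, `D'` from `exists_discrK s H`; `absNorm_le_house`, `house (2 D') ≤ 2 house D'` (`house_nat_mul`): `log N(D) ≤ m (log 2 + log (2 s)! + 2 s log s + 2 s log H) ≤ C log H` as `log H ≥ log 2`. If `s = 0`: `f = C a`, `a ≠ 0` (`f.map` is squarefree, so not zero), `D = 2 a`,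
`φ D ≠ 0` implies that `f.map φ` is a nonzero constant, so squarefree of degree `0`. The number of the maximal ideals containing `D` is at most `log N(D) / log 2` (`nK_mem`). -/
theorem discr_primes (s m : ℕ) : ∃ B : ℝ, 0 ≤ B ∧ ∀ (K : Type) [Field K] [NumberField K],
    Module.finrank ℚ K = m → ∀ (H : ℝ), 2 ≤ H → ∀ f : (𝓞 K)[X], f.natDegree = s →
      Squarefree (f.map (algebraMap (𝓞 K) K)) → (∀ i, house (f.coeff i : K) ≤ H) →
        ∃ D : 𝓞 K, D ≠ 0 ∧ (∀ y : ℕ, (nK K (fun 𝔭 => D ∈ 𝔭) y : ℝ) ≤ B * Real.log H) ∧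
          ∀ (E : Type) [Field E] (φ : 𝓞 K →+* E), φ D ≠ 0 →
            (2 : E) ≠ 0 ∧ Squarefree (f.map φ) ∧ (f.map φ).natDegree = s := by
  obtain ⟨C, hCd⟩ : ∃ C : ℝ, C = 2 * (2 * s).factorial * ((s : ℝ) + 1) ^ (2 * s) := ⟨_, rfl⟩
  have hC : 1 ≤ C := by
    rw [hCd]
    have h1 : (1 : ℝ) ≤ (2 * s).factorial := by exact_mod_cast Nat.succ_le_of_lt (Nat.factorial_pos _)
    have h2 : (1 : ℝ) ≤ ((s : ℝ) + 1) ^ (2 * s) := one_le_pow₀ (by
      have := Nat.cast_nonneg (α := ℝ) s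
      linarith)
    nlinarith
  have hl2 : 0 < Real.log 2 := Real.log_pos (by norm_num)
  have hlC : 0 ≤ Real.log C := Real.log_nonneg hC
  refine ⟨m * (Real.log C / Real.log 2 + (2 * s + 1 : ℕ)) / Real.log 2, by positivity, ?_⟩
  intro K _ _ hm H hH f hf hsq hc
  have hH1 : 1 ≤ H := by linarith
  have hinj : Function.Injective (algebraMap (𝓞 K) K) := RingOfIntegers.coe_injective
  obtain ⟨D', hD', hhouse, hφ⟩ : ∃ D' : 𝓞 K, D' ≠ 0 ∧ 2 * house (D' : K) ≤ C * H ^ (2 * s + 1) ∧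
      ∀ (E : Type) [Field E] (φ : 𝓞 K →+* E), φ D' ≠ 0 → Squarefree (f.map φ) ∧
        (f.map φ).natDegree = s := by
    rcases Nat.eq_zero_or_pos s with hs | hs
    · have h1 : f = Polynomial.C (f.coeff 0) := Polynomial.eq_C_of_natDegree_eq_zero (hf.trans hs)
      have h2 : f.coeff 0 ≠ 0 := by
        intro h3
        rw [h3, Polynomial.C_0] at h1
        rw [h1, Polynomial.map_zero] at hsq
        exact not_squarefree_zero hsq
      refine ⟨f.coeff 0, h2, ?_, fun E _ φ h3 => ?_⟩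
      · have h3 := hc 0
        rw [hCd, hs]
        simp only [mul_zero, Nat.factorial_zero, Nat.cast_one, mul_one, pow_zero, zero_add, pow_one]
        linarith
      · have h4 : f.map φ = Polynomial.C (φ (f.coeff 0)) := by
          conv_lhs => rw [h1]
          rw [Polynomial.map_C]
        rw [h4]
        refine ⟨IsUnit.squarefree ?_, ?_⟩
        · exact Polynomial.isUnit_C.2 (IsUnit.mk0 _ h3)
        · rw [Polynomial.natDegree_C, hs]
    · obtain ⟨D', h1, h2, h3⟩ := exists_discrK s H hs hH1 f hf hsq hc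
      refine ⟨D', h1, ?_, h3⟩
      have hs0 : (0 : ℝ) ≤ s := Nat.cast_nonneg s
      have h4 : ((s : ℝ) * H) ^ (2 * s) ≤ ((s : ℝ) + 1) ^ (2 * s) * H ^ (2 * s + 1) := by
        rw [mul_pow]
        refine mul_le_mul (pow_le_pow_left₀ hs0 (by linarith) _)
          (pow_le_pow_right₀ hH1 (Nat.le_succ _)) (by positivity) (by positivity)
      have h5 : (0 : ℝ) ≤ (2 * s).factorial := Nat.cast_nonneg _
      have h6 := mul_le_mul_of_nonneg_left h4 h5
      rw [hCd]
      calc 2 * house (D' : K) ≤ 2 * ((2 * s).factorial * ((s : ℝ) * H) ^ (2 * s)) := by linarith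
        _ ≤ 2 * ((2 * s).factorial * (((s : ℝ) + 1) ^ (2 * s) * H ^ (2 * s + 1))) := by linarith
        _ = 2 * (2 * s).factorial * ((s : ℝ) + 1) ^ (2 * s) * H ^ (2 * s + 1) := by ring
  have h20 : (2 : 𝓞 K) ≠ 0 := two_ne_zero
  have hcoe : ((2 * D' : 𝓞 K) : K) = ((2 : ℕ) : K) * (D' : K) := by
    push_cast
    rfl
  refine ⟨2 * D', mul_ne_zero h20 hD', fun y => ?_, fun E _ φ h1 => ?_⟩
  · refine M8_log hm (2 * D') (mul_ne_zero h20 hD') hC (2 * s + 1) hH ?_ y
    rw [hcoe, house_nat_mul]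
    push_cast
    exact hhouse
  · rw [map_mul, map_ofNat] at h1
    exact ⟨left_ne_zero_of_mul h1, hφ E φ (right_ne_zero_of_mul h1)⟩

end MPadcOA
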