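import Pool.Agent.Lib.MP_adc574_ag_OAM.M3
import Pool.Agent.Lib.MP_adc574_ag_OAP.TwOdd
import Pool.Agent.Lib.MP_adc574_ag_OAP.TwEven

/-!
# M10: finite fields, fixed factor, moving factor: all degrees
-/

set_option autoImplicit false

namespace MPadcOA

open Polynomial

theorem fewMix (n r : ℕ) (hn : 3 ≤ n) (hr : 0 < r) (hrn : r ≤ n) : FewMix n r := by
  rcases Nat.even_or_odd n with ⟨k, hk⟩ | ⟨k, hk⟩
  · obtain ⟨g, rfl⟩ : ∃ g, k = g + 1 := ⟨k - 1, by omega⟩
    have hg : 0 < g := by omega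
    have hn2 : n = 2 * g + 2 := by omega
    subst hn2
    exact fewMix_of_count g _ r (Or.inr rfl) hr hrn (countHypE_of_tw g _ hg (twHyp_even g hg))
  · have hg : 0 < k := by omega
    subst hk
    exact fewMix_of_count k _ r (Or.inl rfl) hr hrn (countHypE_of_tw k _ hg (twHyp_odd k hg))

/-- The same in terms of the polynomials `h`. -/
theorem few_monic (n r : ℕ) (hn : 3 ≤ n) (hr : 0 < r) (hrn : r ≤ n) : ∃ A κ : ℝ, 0 < κ ∧
    ∀ p : ℕ, p.Prime → ∀ (E : Type) [Field E] [Finite E] [CharP E p] (f : E[X]),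
      Squarefree f → f.natDegree + r = n →
      ({h : E[X] | h.Monic ∧ h.natDegree = r ∧ ¬ (Squarefree (f * h) ∧ HyperIsOrdinary (f * h))}.ncard : ℝ) ≤
        A * (Nat.card E : ℝ) ^ r * (p : ℝ) ^ (-κ) := by
  obtain ⟨A, κ, hκ, h⟩ := fewMix n r hn hr hrn
  refine ⟨A, κ, hκ, fun p hp E _ _ _ f hf hfn => le_trans ?_ (h p hp E f hf hfn)⟩
  have h1 : Nat.card {c : Fin r → E // ¬ (Squarefree (f * monicOf c) ∧ HyperIsOrdinary (f * monicOf c))} =
      {c : Fin r → E | ¬ (Squarefree (f * monicOf c) ∧ HyperIsOrdinary (f * monicOf c))}.ncard :=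
    Nat.card_coe_set_eq _
  rw [h1]
  have h2 : {h : E[X] | h.Monic ∧ h.natDegree = r ∧ ¬ (Squarefree (f * h) ∧ HyperIsOrdinary (f * h))} ⊆
      monicOf '' {c : Fin r → E | ¬ (Squarefree (f * monicOf c) ∧ HyperIsOrdinary (f * monicOf c))} := by
    rintro h ⟨hm, hd, hb⟩
    have h3 : monicOf (fun i : Fin r => h.coeff i) = h := by
      have h4 := hm.as_sum
      rw [hd, ← Fin.sum_univ_eq_sum_range (fun i => C (h.coeff i) * X ^ i)] at h4
      exact h4.symm
    refine ⟨fun i => h.coeff i, ?_, h3⟩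
    show ¬ _
    rw [h3]
    exact hb
  have hfin : {c : Fin r → E | ¬ (Squarefree (f * monicOf c) ∧ HyperIsOrdinary (f * monicOf c))}.Finite :=
    Set.toFinite _
  exact_mod_cast (Set.ncard_le_ncard h2 (hfin.image _)).trans (Set.ncard_image_le hfin)

end MPadcOA
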