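import Pool.Agent.Lib.MP_adc574_ag_OAP.H3

/-!
# Leaf M1: decomposition and counting with a fixed factor `f` (copies of `decompn`, `BadFn_le` of H3)
-/

set_option autoImplicit false

namespace MPadcOA

open Polynomial MPadcCC

variable (E : Type) [Field E] [Finite E] (p g r : ℕ) (f : E[X])

/-- The monic polynomials `h` of degree `r` such that `f * h` is squarefree and has a singular Hasse-Witt matrix. -/
def BadFf : Set E[X] :=
  {h | h ∈ Mon E r ∧ Squarefree (f * h) ∧ (hw p (g + 1) ((f * h) ^ ((p - 1) / 2))).det = 0}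

private theorem M1_hw_map {R S : Type*} [CommRing R] [CommRing S] (φ : R →+* S) (p m : ℕ) (G : R[X]) :
    φ.mapMatrix (hw p m G) = hw p m (G.map φ) := by
  ext α β
  simp only [hw, RingHom.mapMatrix_apply, Matrix.map_apply, coeff_map]

/-- DECOMPOSITION. PROOF. As `decompn` in H3, with the root `t` of `h` (degree `r ≥ 1`) in the algebraic closure, `m = r' + 1` its period, `P` the polynomial of `conj_lift`, `P ∣ h` (`conj_dvd`), `h = P * h'`; `f * h = P * (f * h')`.
`(f * h')(t) ≠ 0` since otherwise `P ∣ f * h'` (`conj_dvd`) and `P ^ 2 ∣ f * h`, `P` not a unit. -/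
theorem decompf (hr : 0 < r) (h : E[X]) (hh : h ∈ BadFf E p g r f) :
    ∃ r' < r, ∃ h' ∈ Mon E (r - (r' + 1)), Squarefree (f * h') ∧
      ∃ t ∈ BadT E p g r' (f * h'), h.map (algebraMap E (AlgebraicClosure E)) =
        conj (AlgebraicClosure E) (Nat.card E) (r' + 1) t * h'.map (algebraMap E (AlgebraicClosure E)) := by
  classical
  obtain ⟨⟨hmon, hdeg⟩, hsq, hdet⟩ := hh
  have hd0 : h.degree ≠ 0 := by
    intro h0
    have h2 := Polynomial.natDegree_eq_zero_iff_degree_le_zero.2 h0.le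
    rw [hdeg] at h2
    omega
  obtain ⟨t, ht⟩ := IsAlgClosed.exists_aeval_eq_zero (AlgebraicClosure E) h hd0
  obtain ⟨m, hm, htm, hper⟩ := exists_period t
  obtain ⟨P, hP, hPd, hPm⟩ := conj_lift t m hm htm
  obtain ⟨h', hf⟩ := conj_dvd t m hper P h hP hPm ht
  have hfm : h'.Monic := by
    rw [hf] at hmon
    exact Monic.of_mul_monic_left hP hmon
  have hfd : m + h'.natDegree = r := by
    have h1 := hP.natDegree_mul hfm
    rw [← hf, hdeg, hPd] at h1
    exact h1.symm
  have hfh : f * h = P * (f * h') := by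
    rw [hf]
    ring
  have hfsq : Squarefree (f * h') := hsq.squarefree_of_dvd (Dvd.intro_left P hfh.symm)
  obtain ⟨r', rfl⟩ : ∃ r', m = r' + 1 := ⟨m - 1, by omega⟩
  have hmap : h.map (algebraMap E (AlgebraicClosure E)) =
      conj (AlgebraicClosure E) (Nat.card E) (r' + 1) t * h'.map (algebraMap E (AlgebraicClosure E)) := by
    rw [hf, Polynomial.map_mul, hPm]
  have hmap2 : (f * h).map (algebraMap E (AlgebraicClosure E)) =
      conj (AlgebraicClosure E) (Nat.card E) (r' + 1) t * (f * h').map (algebraMap E (AlgebraicClosure E)) := by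
    rw [hfh, Polynomial.map_mul, hPm]
  refine ⟨r', by omega, h', ⟨hfm, by omega⟩, hfsq, t, ⟨htm, ?_, ?_, ?_⟩, hmap⟩
  · intro i hi
    exact hper (i + 1) (Nat.succ_pos i) (Nat.succ_lt_succ hi)
  · intro h0
    have h1 : P ∣ f * h' := conj_dvd t (r' + 1) hper P (f * h') hP hPm h0
    have h2 : P * P ∣ f * h := by
      rw [hfh]
      exact mul_dvd_mul_left P h1
    have h3 := natDegree_eq_zero_of_isUnit (hsq P h2)
    omega
  · rw [← hmap2, ← Polynomial.map_pow, ← M1_hw_map, ← RingHom.map_det, hdet, map_zero]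

/-- COUNTING. PROOF. As `BadFn_le` in H3: union over `r' < r`, `h' ∈ Mon E (r - (r' + 1))` with `f * h'` squarefree, `t ∈ BadT r' (f * h')` of sets with at most one element: at most
`∑_(r' < r) q ^ (r - r' - 1) * (ε * q ^ (r' + 1)) = r ε q ^ r`. -/
theorem BadFf_le (hr : 0 < r) (ε : ℝ) (hε : 0 ≤ ε)
    (H : ∀ r' < r, ∀ h' ∈ Mon E (r - (r' + 1)), Squarefree (f * h') →
      ((BadT E p g r' (f * h')).ncard : ℝ) ≤ ε * (Nat.card E : ℝ) ^ (r' + 1)) :
    ((BadFf E p g r f).ncard : ℝ) ≤ r * ε * (Nat.card E : ℝ) ^ r := by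
  classical
  let φ := algebraMap E (AlgebraicClosure E)
  have hφ : Function.Injective (fun F : E[X] => F.map φ) := Polynomial.map_injective φ φ.injective
  let sq : ℕ → Finset E[X] := fun r' => (Mon_finite E (r - (r' + 1))).toFinset.filter fun h' => Squarefree (f * h')
  let BT : ℕ → E[X] → Finset (AlgebraicClosure E) := fun r' h' => (BadT_finite E p g r' (f * h')).toFinset
  let S : Finset (AlgebraicClosure E)[X] := (Finset.range r).biUnion fun r' =>
    (sq r').biUnion fun h' => (BT r' h').image fun t =>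
      conj (AlgebraicClosure E) (Nat.card E) (r' + 1) t * h'.map φ
  have hsub : (fun F : E[X] => F.map φ) '' BadFf E p g r f ⊆ (S : Set (AlgebraicClosure E)[X]) := by
    rintro _ ⟨F, hF, rfl⟩
    obtain ⟨r', hr', h', hf, hfsq, t, ht, hm⟩ := decompf E p g r f hr F hF
    simp only [S, Finset.coe_biUnion, Set.mem_iUnion, Finset.mem_coe, Finset.mem_image]
    refine ⟨r', Finset.mem_range.2 hr', h', ?_, t, ?_, hm.symm⟩
    · exact Finset.mem_filter.2 ⟨(Mon_finite E (r - (r' + 1))).mem_toFinset.2 hf, hfsq⟩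
    · exact (BadT_finite E p g r' (f * h')).mem_toFinset.2 ht
  have h1 : (BadFf E p g r f).ncard ≤ S.card := by
    rw [← Set.ncard_image_of_injective (BadFf E p g r f) hφ, ← Set.ncard_coe_finset S]
    exact Set.ncard_le_ncard hsub S.finite_toSet
  have h2 : S.card ≤ ∑ r' ∈ Finset.range r, ∑ h' ∈ sq r', (BT r' h').card := by
    refine Finset.card_biUnion_le.trans (Finset.sum_le_sum fun r' _ => ?_)
    refine Finset.card_biUnion_le.trans (Finset.sum_le_sum fun h' _ => ?_)
    exact Finset.card_image_le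
  have h3 : ((∑ r' ∈ Finset.range r, ∑ h' ∈ sq r', (BT r' h').card : ℕ) : ℝ) ≤
      ∑ r' ∈ Finset.range r, ε * (Nat.card E : ℝ) ^ r := by
    rw [Nat.cast_sum]
    refine Finset.sum_le_sum fun r' hr1 => ?_
    have hr' : r' < r := Finset.mem_range.1 hr1
    rw [Nat.cast_sum]
    have hb : ∀ h' ∈ sq r', (((BT r' h').card : ℕ) : ℝ) ≤ ε * (Nat.card E : ℝ) ^ (r' + 1) := by
      intro h' hf
      obtain ⟨hf1, hf2⟩ := Finset.mem_filter.1 hf
      have h4 := H r' hr' h' ((Mon_finite E (r - (r' + 1))).mem_toFinset.1 hf1) hf2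
      rwa [Set.ncard_eq_toFinset_card _ (BadT_finite E p g r' (f * h'))] at h4
    have hc : (((sq r').card : ℕ) : ℝ) ≤ (Nat.card E : ℝ) ^ (r - (r' + 1)) := by
      have h5 : (sq r').card ≤ Nat.card E ^ (r - (r' + 1)) := by
        refine (Finset.card_filter_le _ _).trans (le_of_eq ?_)
        rw [← Set.ncard_eq_toFinset_card _ (Mon_finite E (r - (r' + 1))), Mon_ncard]
      exact_mod_cast h5
    calc ∑ h' ∈ sq r', (((BT r' h').card : ℕ) : ℝ) ≤ ∑ _h' ∈ sq r', ε * (Nat.card E : ℝ) ^ (r' + 1) :=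
          Finset.sum_le_sum hb
      _ = ((sq r').card : ℝ) * (ε * (Nat.card E : ℝ) ^ (r' + 1)) := by
          rw [Finset.sum_const, nsmul_eq_mul]
      _ ≤ (Nat.card E : ℝ) ^ (r - (r' + 1)) * (ε * (Nat.card E : ℝ) ^ (r' + 1)) :=
          mul_le_mul_of_nonneg_right hc (mul_nonneg hε (pow_nonneg (Nat.cast_nonneg _) _))
      _ = ε * ((Nat.card E : ℝ) ^ (r - (r' + 1)) * (Nat.card E : ℝ) ^ (r' + 1)) := by ring
      _ = ε * (Nat.card E : ℝ) ^ r := by
          rw [← pow_add]
          have h6 : r - (r' + 1) + (r' + 1) = r := by omega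
          rw [h6]
  have h4 : ((BadFf E p g r f).ncard : ℝ) ≤ ((S.card : ℕ) : ℝ) := by exact_mod_cast h1
  have h5 : ((S.card : ℕ) : ℝ) ≤
      ((∑ r' ∈ Finset.range r, ∑ h' ∈ sq r', (BT r' h').card : ℕ) : ℝ) := by exact_mod_cast h2
  refine (h4.trans (h5.trans h3)).trans (le_of_eq ?_)
  rw [Finset.sum_const, Finset.card_range, nsmul_eq_mul]
  push_cast
  ring

end MPadcOA
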