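import Pool.Agent.Lib.MP_adc574_ag_OAP.G2

/-!
# Leaf M2: the monic `h` such that `f * h` is not squarefree
-/

set_option autoImplicit false

namespace MPadcOA

open Polynomial

private theorem M2_card (E : Type) [Field E] [DecidableEq E] (f : E[X]) (hf : f ≠ 0) :
    Multiset.card (UniqueFactorizationMonoid.normalizedFactors f) ≤ f.natDegree := by
  have hm : ∀ P ∈ UniqueFactorizationMonoid.normalizedFactors f, P.Monic := by
    intro P hP
    have h1 := UniqueFactorizationMonoid.irreducible_of_normalized_factor P hP
    rw [← UniqueFactorizationMonoid.normalize_normalized_factor P hP]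
    exact Polynomial.monic_normalize h1.ne_zero
  have h1 : ((UniqueFactorizationMonoid.normalizedFactors f).prod).natDegree = f.natDegree :=
    natDegree_eq_of_degree_eq (degree_eq_degree_of_associated
      (UniqueFactorizationMonoid.prod_normalizedFactors hf))
  rw [← h1, natDegree_multiset_prod_of_monic _ hm]
  have h2 := Multiset.card_nsmul_le_sum
    (s := (UniqueFactorizationMonoid.normalizedFactors f).map natDegree) (a := 1) (by
      intro d hd
      obtain ⟨P, hP, rfl⟩ := Multiset.mem_map.1 hd
      exact (UniqueFactorizationMonoid.irreducible_of_normalized_factor P hP).natDegree_pos)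
  rw [Multiset.card_map, smul_eq_mul, mul_one] at h2
  exact h2

/-- PROOF. If `f * h` is not squarefree, then (`squarefree_mul_iff`, `f` squarefree) `h` is not squarefree (at most `r * q ^ (r - 1)` such `h`: `nonsquarefree_le`), or some irreducible polynomial divides `f` and `h`; we may take it monic, so it is one of the `≤ natDegree f` elements `P` of `normalizedFactors f`
(`degree ≥ 1`), and `h = P * h'`, `h'` monic of degree `r - natDegree P ≤ r - 1`: at most `q ^ (r - 1)` such `h` (`Mon_ncard`, `Set.ncard_image_le`). -/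
theorem nonsquarefree_mul_le (E : Type) [Field E] [Finite E] (f : E[X]) (hf : Squarefree f) (r : ℕ) (hr : 0 < r) :
    {h ∈ Mon E r | ¬ Squarefree (f * h)}.ncard ≤ (f.natDegree + r) * Nat.card E ^ (r - 1) := by
  classical
  have hq : 0 < Nat.card E := Nat.card_pos
  have hf0 : f ≠ 0 := hf.ne_zero
  obtain ⟨T, hT⟩ : ∃ T : Finset E[X],
      T = (UniqueFactorizationMonoid.normalizedFactors f).toFinset := ⟨_, rfl⟩
  have hTc : T.card ≤ f.natDegree := by
    rw [hT]
    exact (Multiset.toFinset_card_le _).trans (M2_card E f hf0)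
  have hirr : ∀ P ∈ T, Irreducible P := by
    intro P hP
    rw [hT, Multiset.mem_toFinset] at hP
    exact UniqueFactorizationMonoid.irreducible_of_normalized_factor P hP
  have hmon : ∀ P ∈ T, P.Monic := by
    intro P hP
    have h1 := hirr P hP
    rw [hT, Multiset.mem_toFinset] at hP
    rw [← UniqueFactorizationMonoid.normalize_normalized_factor P hP]
    exact Polynomial.monic_normalize h1.ne_zero
  have hsub : {h ∈ Mon E r | ¬ Squarefree (f * h)} ⊆ {h ∈ Mon E r | ¬ Squarefree h} ∪
      ⋃ P ∈ T, (fun h' : E[X] => P * h') '' Mon E (r - P.natDegree) := by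
    rintro h ⟨hM, hs⟩
    by_cases hsq : Squarefree h
    · right
      have h1 : ¬ IsRelPrime f h := fun h2 => hs (squarefree_mul_iff.2 ⟨h2, hf, hsq⟩)
      unfold IsRelPrime at h1
      push Not at h1
      obtain ⟨d, hdf, hdh, hdu⟩ := h1
      have hd0 : d ≠ 0 := ne_zero_of_dvd_ne_zero hf0 hdf
      obtain ⟨p, hp, hpd⟩ := WfDvdMonoid.exists_irreducible_factor hdu hd0
      obtain ⟨P, hP, hpP⟩ := UniqueFactorizationMonoid.exists_mem_normalizedFactors_of_dvd hf0 hp
        (hpd.trans hdf)
      have hPT : P ∈ T := by
        rw [hT, Multiset.mem_toFinset]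
        exact hP
      have hPh : P ∣ h := hpP.symm.dvd.trans (hpd.trans hdh)
      obtain ⟨h', hh'⟩ := hPh
      rw [Set.mem_iUnion₂]
      have hm' : h'.Monic := (hmon P hPT).of_mul_monic_left (hh' ▸ hM.1)
      have hdeg : h.natDegree = P.natDegree + h'.natDegree := by
        rw [hh', (hmon P hPT).natDegree_mul hm']
      refine ⟨P, hPT, h', ⟨hm', ?_⟩, hh'.symm⟩
      have h2 : h.natDegree = r := hM.2
      omega
    · left
      exact ⟨hM, hsq⟩
  have hfin2 : (⋃ P ∈ T, (fun h' : E[X] => P * h') '' Mon E (r - P.natDegree)).Finite :=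
    Set.Finite.biUnion (Finset.finite_toSet _) fun P _ => (Mon_finite E _).image _
  have hfin1 : {h ∈ Mon E r | ¬ Squarefree h}.Finite := (Mon_finite E r).subset fun h hh => hh.1
  refine (Set.ncard_le_ncard hsub (hfin1.union hfin2)).trans
    ((Set.ncard_union_le _ _).trans ?_)
  rw [add_mul, add_comm]
  refine Nat.add_le_add ?_ (nonsquarefree_le E r hr)
  refine (Finset.set_ncard_biUnion_le _ _).trans ?_
  refine (Finset.sum_le_sum (g := fun _ => Nat.card E ^ (r - 1)) fun P hP => ?_).trans ?_
  · refine (Set.ncard_image_le (Mon_finite E _)).trans ?_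
    rw [Mon_ncard]
    have h1 := (hirr P hP).natDegree_pos
    exact Nat.pow_le_pow_right hq (by omega)
  · rw [Finset.sum_const, smul_eq_mul]
    exact Nat.mul_le_mul_right _ hTc

end MPadcOA
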