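import Pool.Agent.Lib.MP_adc574_ag_OAM.MDefs
import Pool.Agent.Lib.MP_adc574_ag_OAM.M1
import Pool.Agent.Lib.MP_adc574_ag_OAM.M2
import Pool.Agent.Lib.MP_adc574_ag_OAP.H5
import Pool.Agent.Lib.MP_adc574_ag_OA.BK10

/-!
# Leaf M3: finite fields, fixed factor `f`, moving factor `h`
-/

set_option autoImplicit false

namespace MPadcOA

open Polynomial Matrix MPadcCC

/-- The monic `h` of degree `r` such that `f * h` is not squarefree or has a singular Hasse-Witt matrix. -/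
def NonInvf (E : Type) [Field E] (p g r : ℕ) (f : E[X]) : Set E[X] :=
  {h | h ∈ Mon E r ∧ ¬ (Squarefree (f * h) ∧ (hw p (g + 1) ((f * h) ^ ((p - 1) / 2))).det ≠ 0)}

theorem nonInvf_leE (g n r : ℕ) (hr : 0 < r) (hrn : r ≤ n) (HC : CountHypE g n) :
    ∃ C : ℕ, 0 < C ∧ ∀ p : ℕ, p.Prime → ∀ L : ℕ, 0 < L → C * L ^ C ≤ p →
    ∀ (E : Type) [Field E] [Finite E] [CharP E p] (f : E[X]), f.Monic → Squarefree f → f.natDegree + r = n →
    (NonInvf E p g r f).ncard * L ≤ C * (Nat.card E) ^ r := by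
  obtain ⟨C₀, h1⟩ := BadT_lenE g n HC
  refine ⟨r * C₀ + n + C₀, by omega, fun p hp L hL hpL E _ _ _ f hfm hfs hfn => ?_⟩
  obtain ⟨C, hC⟩ : ∃ C : ℕ, C = r * C₀ + n + C₀ := ⟨_, rfl⟩
  rw [← hC] at hpL ⊢
  have : Fact p.Prime := ⟨hp⟩
  have hC1 : 1 ≤ C := by omega
  -- `L ≤ p ≤ q`
  have hq : p ≤ Nat.card E := by
    let _ : Fintype E := Fintype.ofFinite E
    obtain ⟨n, -, hn⟩ := FiniteField.card E p
    rw [Nat.card_eq_fintype_card, hn]
    exact Nat.le_self_pow n.pos.ne' p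
  have hLq : L ≤ Nat.card E := by
    refine le_trans ?_ (hpL.trans hq)
    calc L ≤ L ^ C := Nat.le_self_pow (by omega) L
      _ ≤ C * L ^ C := Nat.le_mul_of_pos_left _ hC1
  have hpL0 : C₀ * L ^ C₀ ≤ p :=
    (Nat.mul_le_mul (by omega) (Nat.pow_le_pow_right hL (by omega))).trans hpL
  have hLr : (0 : ℝ) < L := by exact_mod_cast hL
  -- the two parts
  have h2 := BadFf_le E p g r f hr ((C₀ : ℝ) / L) (by positivity) (fun r' hr' h' hh' hs => by
    have h5 : f * h' ∈ Mon E (n - (r' + 1)) := by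
      refine ⟨hfm.mul hh'.1, ?_⟩
      rw [hfm.natDegree_mul hh'.1, hh'.2]
      omega
    have h3 := h1 p hp L hL hpL0 E r' (by omega) (f * h') h5 hs
    have h4 : ((BadT E p g r' (f * h')).ncard : ℝ) * L ≤ C₀ * (Nat.card E : ℝ) ^ (r' + 1) := by
      exact_mod_cast h3
    rw [div_mul_eq_mul_div, le_div_iff₀ hLr]
    exact h4)
  have h2' : (BadFf E p g r f).ncard * L ≤ r * C₀ * (Nat.card E) ^ r := by
    have h3 : ((BadFf E p g r f).ncard : ℝ) * L ≤ r * C₀ * (Nat.card E : ℝ) ^ r := by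
      have h4 : (r : ℝ) * (C₀ / L) * (Nat.card E : ℝ) ^ r = r * C₀ * (Nat.card E : ℝ) ^ r / L := by ring
      rw [h4, le_div_iff₀ hLr] at h2
      exact h2
    exact_mod_cast h3
  have h3 := nonsquarefree_mul_le E f hfs r hr
  have h3' : ({h ∈ Mon E r | ¬ Squarefree (f * h)} : Set E[X]).ncard * L ≤ n * (Nat.card E) ^ r := by
    calc ({h ∈ Mon E r | ¬ Squarefree (f * h)} : Set E[X]).ncard * L
        ≤ (f.natDegree + r) * Nat.card E ^ (r - 1) * Nat.card E := Nat.mul_le_mul h3 hLq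
      _ = (f.natDegree + r) * Nat.card E ^ (r - 1 + 1) := by ring
      _ = n * Nat.card E ^ r := by rw [Nat.sub_add_cancel hr, hfn]
  have hsub : NonInvf E p g r f ⊆ BadFf E p g r f ∪ {h ∈ Mon E r | ¬ Squarefree (f * h)} := by
    rintro F ⟨hF1, hF2⟩
    by_cases hs : Squarefree (f * F)
    · left
      refine ⟨hF1, hs, ?_⟩
      by_contra hd
      exact hF2 ⟨hs, hd⟩
    · right
      exact ⟨hF1, hs⟩
  have hfin : (BadFf E p g r f ∪ {h ∈ Mon E r | ¬ Squarefree (f * h)}).Finite := by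
    refine (Mon_finite E r).subset ?_
    rintro F (hF | hF)
    · exact hF.1
    · exact hF.1
  have h5 : (NonInvf E p g r f).ncard ≤ (BadFf E p g r f).ncard +
      ({h ∈ Mon E r | ¬ Squarefree (f * h)} : Set E[X]).ncard :=
    (Set.ncard_le_ncard hsub hfin).trans (Set.ncard_union_le _ _)
  calc (NonInvf E p g r f).ncard * L ≤ ((BadFf E p g r f).ncard +
      ({h ∈ Mon E r | ¬ Squarefree (f * h)} : Set E[X]).ncard) * L := Nat.mul_le_mul_right L h5
    _ ≤ r * C₀ * (Nat.card E) ^ r + n * (Nat.card E) ^ r := by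
        rw [add_mul]
        exact Nat.add_le_add h2' h3'
    _ = (r * C₀ + n) * (Nat.card E) ^ r := by ring
    _ ≤ C * (Nat.card E) ^ r := Nat.mul_le_mul_right _ (by omega)

private theorem M3_monic {E : Type} [Field E] (r : ℕ) (c : Fin r → E) : monicOf c ∈ Mon E r := by
  have h : (∑ i : Fin r, C (c i) * X ^ (i : ℕ) : E[X]).degree < r := degree_sum_fin_lt c
  unfold monicOf
  refine ⟨monic_X_pow_add h, ?_⟩
  rw [natDegree_add_eq_left_of_degree_lt (by rwa [degree_X_pow]), natDegree_X_pow]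

private theorem M3_inj {E : Type} [Field E] (r : ℕ) : Function.Injective (monicOf : (Fin r → E) → E[X]) := by
  intro c c' h
  unfold monicOf at h
  have h2 : ∑ i : Fin r, C (c i) * X ^ (i : ℕ) = ∑ i : Fin r, C (c' i) * X ^ (i : ℕ) := add_left_cancel h
  have h3 : ∀ (d : Fin r → E) (j : Fin r), (∑ i : Fin r, C (d i) * X ^ (i : ℕ)).coeff (j : ℕ) = d j := by
    intro d j
    rw [finsetSum_coeff, Finset.sum_eq_single j]
    · rw [coeff_C_mul, coeff_X_pow, if_pos rfl, mul_one]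
    · intro i _ hij
      rw [coeff_C_mul, coeff_X_pow, if_neg (fun h => hij (Fin.ext h.symm)), mul_zero]
    · intro h
      exact absurd (Finset.mem_univ _) h
  funext j
  rw [← h3 c j, ← h3 c' j, h2]

private theorem M3_hw_smul {K : Type*} [Field K] (p m : ℕ) (c : K) (G : K[X]) :
    hw p m (C c * G) = c • hw p m G := by
  ext i j
  simp [hw]

private theorem M3_card (E : Type) [Field E] [Finite E] (p g n r : ℕ) (hp : p.Prime) (hpg : 2 * g + 2 < p)
    [CharP E p] (hn : n = 2 * g + 1 ∨ n = 2 * g + 2) (f : E[X]) (hf : Squarefree f) (hfn : f.natDegree + r = n) :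
    Nat.card {c : Fin r → E // ¬ (Squarefree (f * monicOf c) ∧ HyperIsOrdinary (f * monicOf c))} ≤
      (NonInvf E p g r (C f.leadingCoeff⁻¹ * f)).ncard := by
  have : Fact p.Prime := ⟨hp⟩
  have hf0 : f ≠ 0 := hf.ne_zero
  have hlc : f.leadingCoeff ≠ 0 := leadingCoeff_ne_zero.2 hf0
  have h1 : Nat.card {c : Fin r → E // ¬ (Squarefree (f * monicOf c) ∧ HyperIsOrdinary (f * monicOf c))} =
      {c : Fin r → E | ¬ (Squarefree (f * monicOf c) ∧ HyperIsOrdinary (f * monicOf c))}.ncard :=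
    Nat.card_coe_set_eq _
  rw [h1]
  refine Set.ncard_le_ncard_of_injOn (fun c : Fin r → E => monicOf c) ?_ ?_ ?_
  · intro c hc
    obtain ⟨hm, hd⟩ := M3_monic r c
    refine ⟨⟨hm, hd⟩, ?_⟩
    rintro ⟨hsq, hdet⟩
    apply hc
    obtain ⟨G, hG⟩ : ∃ G : E[X], G = C f.leadingCoeff⁻¹ * f * monicOf c := ⟨_, rfl⟩
    rw [← hG] at hsq hdet
    have hFG : f * monicOf c = C f.leadingCoeff * G := by
      rw [hG, ← mul_assoc, ← mul_assoc, ← C_mul, mul_inv_cancel₀ hlc, C_1, one_mul]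
    have hu : IsUnit (C f.leadingCoeff : E[X]) := isUnit_C.2 (isUnit_iff_ne_zero.2 hlc)
    have hsq' : Squarefree (f * monicOf c) := by
      have hass : Associated G (f * monicOf c) := by
        obtain ⟨u, hu'⟩ := hu
        exact ⟨u, by rw [hu', mul_comm]; exact hFG.symm⟩
      exact hass.squarefree_iff.1 hsq
    have hdeg : (f * monicOf c).natDegree = n := by
      rw [natDegree_mul hf0 hm.ne_zero, hd, hfn]
    refine ⟨hsq', isOrdinary_hyper g hpg _ hsq' (by rw [hdeg]; exact hn) ?_⟩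
    have h2 : (f * monicOf c) ^ ((p - 1) / 2) = C (f.leadingCoeff ^ ((p - 1) / 2)) * G ^ ((p - 1) / 2) := by
      rw [hFG, mul_pow, C_pow]
    rw [h2, M3_hw_smul, det_smul]
    exact mul_ne_zero (pow_ne_zero _ (pow_ne_zero _ hlc)) hdet
  · exact (M3_inj r).injOn
  · exact (Mon_finite E r).subset fun F hF => hF.1

private theorem M3_real {C₀ p N e : ℕ} (hC₀ : 0 < C₀) (hp : 0 < p) (hNe : N ≤ e)
    (h : ∀ L : ℕ, C₀ * L ^ C₀ ≤ p → N * L ≤ C₀ * e) :
    (N : ℝ) ≤ (2 * C₀ * (C₀ : ℝ) ^ (1 / (C₀ : ℝ)) + (C₀ : ℝ) ^ (1 / (C₀ : ℝ))) * e * (p : ℝ) ^ (-(1 / (C₀ : ℝ))) := by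
  have hC : (0 : ℝ) < C₀ := by exact_mod_cast hC₀
  have hp0 : (0 : ℝ) < p := by exact_mod_cast hp
  have he : (0 : ℝ) ≤ e := Nat.cast_nonneg _
  obtain ⟨w, hw⟩ : ∃ w : ℝ, w = (C₀ : ℝ) ^ (1 / (C₀ : ℝ)) := ⟨_, rfl⟩
  obtain ⟨z, hz⟩ : ∃ z : ℝ, z = (p : ℝ) ^ (-(1 / (C₀ : ℝ))) := ⟨_, rfl⟩
  obtain ⟨y, hy⟩ : ∃ y : ℝ, y = ((p : ℝ) / C₀) ^ (1 / (C₀ : ℝ)) := ⟨_, rfl⟩
  have hw0 : 0 < w := by
    rw [hw]
    exact Real.rpow_pos_of_pos hC _
  have hz0 : 0 < z := by
    rw [hz]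
    exact Real.rpow_pos_of_pos hp0 _
  have hy0 : 0 < y := by
    rw [hy]
    exact Real.rpow_pos_of_pos (by positivity) _
  have hyw : y * (w * z) = 1 := by
    have h1 : (0 : ℝ) < (p : ℝ) ^ (1 / (C₀ : ℝ)) := Real.rpow_pos_of_pos hp0 _
    rw [hy, hw, hz, Real.div_rpow hp0.le hC.le, Real.rpow_neg hp0.le]
    have h2 : (0 : ℝ) < (C₀ : ℝ) ^ (1 / (C₀ : ℝ)) := Real.rpow_pos_of_pos hC _
    field_simp
  rw [← hw, ← hz]
  rcases lt_or_ge p C₀ with hpC | hpC
  · have h1 : y ≤ 1 := by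
      rw [hy]
      refine Real.rpow_le_one (by positivity) ?_ (by positivity)
      rw [div_le_one hC]
      exact_mod_cast hpC.le
    have h2 : 1 ≤ w * z := by
      have h3 : y * (w * z) ≤ 1 * (w * z) := mul_le_mul_of_nonneg_right h1 (by positivity)
      linarith
    have h4 : (N : ℝ) ≤ e := by exact_mod_cast hNe
    calc (N : ℝ) ≤ e := h4
      _ ≤ (w * z) * e := by nlinarith
      _ ≤ (2 * C₀ * w + w) * e * z := by
          have h5 : 0 ≤ 2 * C₀ * w * e * z := by positivity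
          nlinarith
  · have h1 : 1 ≤ y := by
      rw [hy]
      refine Real.one_le_rpow ?_ (by positivity)
      rw [one_le_div hC]
      exact_mod_cast hpC
    have hL1 : 1 ≤ ⌊y⌋₊ := Nat.le_floor (by exact_mod_cast h1)
    have hL2 : (⌊y⌋₊ : ℝ) ≤ y := Nat.floor_le hy0.le
    have hL3 : y < ⌊y⌋₊ + 1 := Nat.lt_floor_add_one y
    have hyC : y ^ C₀ = (p : ℝ) / C₀ := by
      rw [hy, ← Real.rpow_natCast, ← Real.rpow_mul (by positivity), one_div_mul_cancel hC.ne', Real.rpow_one]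
    have h2 : C₀ * ⌊y⌋₊ ^ C₀ ≤ p := by
      have h3 : (C₀ : ℝ) * (⌊y⌋₊ : ℝ) ^ C₀ ≤ p := by
        calc (C₀ : ℝ) * (⌊y⌋₊ : ℝ) ^ C₀ ≤ C₀ * y ^ C₀ :=
              mul_le_mul_of_nonneg_left (pow_le_pow_left₀ (Nat.cast_nonneg _) hL2 _) hC.le
          _ = p := by
              rw [hyC]
              field_simp
      exact_mod_cast h3
    have h4 := h _ h2
    have h5 : (N : ℝ) * ⌊y⌋₊ ≤ C₀ * e := by exact_mod_cast h4
    have hL4 : (1 : ℝ) ≤ ⌊y⌋₊ := by exact_mod_cast hL1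
    have h6 : (N : ℝ) * y ≤ 2 * C₀ * e := by
      have h7 : (N : ℝ) * y ≤ N * (2 * ⌊y⌋₊) := mul_le_mul_of_nonneg_left (by linarith) (Nat.cast_nonneg _)
      linarith
    have h8 : (N : ℝ) = (N * y) * (w * z) := by
      rw [mul_assoc, hyw, mul_one]
    calc (N : ℝ) = (N * y) * (w * z) := h8
      _ ≤ (2 * C₀ * e) * (w * z) := mul_le_mul_of_nonneg_right h6 (by positivity)
      _ ≤ (2 * C₀ * w + w) * e * z := by
          have h9 : 0 ≤ w * e * z := by positivity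
          nlinarith

/-- Finite fields, fixed factor, moving factor. -/
theorem fewMix_of_count (g n r : ℕ) (hn : n = 2 * g + 1 ∨ n = 2 * g + 2) (hr : 0 < r) (hrn : r ≤ n)
    (HC : CountHypE g n) : FewMix n r := by
  obtain ⟨C₀, hC₀, h⟩ := nonInvf_leE g n r hr hrn HC
  obtain ⟨C₁, hC₁⟩ : ∃ C₁ : ℕ, C₁ = C₀ + (2 * g + 3) := ⟨_, rfl⟩
  have hC1 : 0 < C₁ := by omega
  have hC : (0 : ℝ) < C₁ := by exact_mod_cast hC1
  refine ⟨2 * C₁ * (C₁ : ℝ) ^ (1 / (C₁ : ℝ)) + (C₁ : ℝ) ^ (1 / (C₁ : ℝ)), 1 / C₁, by positivity, ?_⟩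
  intro p hp E _ _ _ f hf hfn
  have h1 : Nat.card {c : Fin r → E // ¬ (Squarefree (f * monicOf c) ∧ HyperIsOrdinary (f * monicOf c))} ≤
      (Nat.card E) ^ r := by
    have h2 := Nat.card_le_card_of_injective
      (Subtype.val : {c : Fin r → E // ¬ (Squarefree (f * monicOf c) ∧ HyperIsOrdinary (f * monicOf c))} → _)
      Subtype.val_injective
    rw [Nat.card_fun, Nat.card_eq_fintype_card (α := Fin r), Fintype.card_fin] at h2
    exact h2
  have h2 := M3_real (e := (Nat.card E) ^ r) hC1 hp.pos h1 fun L hpL => by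
    rcases Nat.eq_zero_or_pos L with hL | hL
    · rw [hL, mul_zero]
      exact Nat.zero_le _
    · have hL1 : 1 ≤ L ^ C₁ := Nat.one_le_pow _ _ hL
      have hp1 : C₁ ≤ p := le_trans (Nat.le_mul_of_pos_right _ hL1) hpL
      have hpL0 : C₀ * L ^ C₀ ≤ p :=
        (Nat.mul_le_mul (by omega) (Nat.pow_le_pow_right hL (by omega))).trans hpL
      have hf0 : f ≠ 0 := hf.ne_zero
      have hlc : f.leadingCoeff ≠ 0 := leadingCoeff_ne_zero.2 hf0
      have hm : (C f.leadingCoeff⁻¹ * f).Monic := by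
        rw [Monic, leadingCoeff_mul, leadingCoeff_C, inv_mul_cancel₀ hlc]
      have hd : (C f.leadingCoeff⁻¹ * f).natDegree = f.natDegree := natDegree_C_mul (inv_ne_zero hlc)
      have hs : Squarefree (C f.leadingCoeff⁻¹ * f) := by
        have hu : IsUnit (C f.leadingCoeff⁻¹ : E[X]) := isUnit_C.2 (isUnit_iff_ne_zero.2 (inv_ne_zero hlc))
        have hass : Associated f (C f.leadingCoeff⁻¹ * f) := by
          obtain ⟨u, hu'⟩ := hu
          exact ⟨u, by rw [hu', mul_comm]⟩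
        exact hass.squarefree_iff.1 hf
      have h3 := M3_card E p g n r hp (by omega) hn f hf hfn
      have h4 := h p hp L hL hpL0 E (C f.leadingCoeff⁻¹ * f) hm hs (by rw [hd]; exact hfn)
      exact (Nat.mul_le_mul_right L h3).trans (h4.trans (Nat.mul_le_mul_right _ (by omega)))
  push_cast at h2
  exact h2

end MPadcOA
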