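import Pool.Agent.Lib.MP_adc574_ag_OA.GDefs

/-!
# Curves `y ^ 2 = f(x) * h(x)` with a fixed factor `f` and a moving factor `h`: definitions
-/

set_option autoImplicit false

namespace MPadcOA

open Polynomial

/-- For every finite field and every squarefree `f` of degree `n - r` all but few of the monic polynomials `h` of
degree `r` are such that `y ^ 2 = f(x) * h(x)` is smooth and ordinary, with a power saving. -/
def FewMix (n r : ℕ) : Prop :=
  ∃ A κ : ℝ, 0 < κ ∧ ∀ p : ℕ, p.Prime →
    ∀ (E : Type) [Field E] [Finite E] [CharP E p] (f : E[X]), Squarefree f → f.natDegree + r = n →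
    (Nat.card {c : Fin r → E // ¬ (Squarefree (f * monicOf c) ∧ HyperIsOrdinary (f * monicOf c))} : ℝ) ≤
      A * (Nat.card E : ℝ) ^ r * (p : ℝ) ^ (-κ)

end MPadcOA
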